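import Pool.Agent.Helper25.LZ.R3

/-!
# Product theorem for HH1 : instants of `T₂` (StmtR4)
-/

set_option autoImplicit false

open Finset

namespace Pool.Agent.Helper60.LZ

open Pool.Agent.Helper99.LZ
open Pool.Agent.Helper25.LZ

/-- sum over the single piece `(p, q)`, `p ≤ q` -/
theorem single_sum {T : Pr} {a b : ℤ} {m : ℤ → ℤ → ℝ} (hc : Cpl T a b m) (p q : ℤ) :
    ∑ i ∈ Icc a b, ∑ i' ∈ Icc a b, m i i' * (if i = p then (if q = i' then (1 : ℝ) else 0) else 0)
      = m p q := by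
  rw [row_sum hc p (fun i' => if q = i' then (1 : ℝ) else 0)]
  by_cases hq : q ∈ Icc a b
  · rw [Finset.sum_eq_single q]
    · simp
    · intro i' _ hi
      rw [if_neg (Ne.symm hi), mul_zero]
    · intro h; exact absurd hq h
  · have h0 : m p q = 0 := by
      by_contra h
      obtain ⟨h1, h2, h3⟩ := hc.supp p q h
      exact hq (Finset.mem_Icc.2 ⟨le_trans h1 h2, h3⟩)
    rw [h0]
    refine Finset.sum_eq_zero fun i' hi' => ?_
    have : q ≠ i' := by rintro rfl; exact hq hi'
    rw [if_neg this, mul_zero]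

theorem F_nonneg {T : Pr} {a b : ℤ} (hr : T.Reg a b) (k : ℤ) : 0 ≤ T.F k := by
  rcases lt_or_ge k a with h | h
  · have h1 := hr.lo k h
    have h2 : T.F k = T.P k - T.Q k := rfl
    rw [h2, h1.1, h1.2]; simp
  · rcases lt_or_ge k b with h' | h'
    · exact (hr.Fpos k h h').le
    · have h1 := hr.hi k h'
      have h2 : T.F k = T.P k - T.Q k := rfl
      rw [h2, h1.1, h1.2]; simp

theorem hp_al (T : Pr) (k : ℤ) : T.hp k = T.al k + T.h k := by
  unfold Pr.hp Pr.al
  rcases le_total 0 (T.h k) with h | h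
  · rw [max_eq_right h, max_eq_left (by linarith)]; ring
  · rw [max_eq_left h, max_eq_right (by linarith)]; ring

theorem L_eq (T : Pr) (k : ℤ) : T.L k = T.F k - T.h k := by
  unfold Pr.L Pr.F Pr.h Pr.H; ring

theorem R_eq (T : Pr) (k : ℤ) : T.R k = T.F (k - 1) - T.h k := by
  unfold Pr.R Pr.F Pr.h Pr.H; ring

theorem L_zero {T : Pr} {a b : ℤ} (hr : T.Reg a b) (k : ℤ) (h1 : T.F k = 0)
    (h2 : T.F (k - 1) = 0) : T.L k = 0 := by
  have e1 : ¬ (a ≤ k ∧ k < b) := fun h => by
    have := hr.Fpos k h.1 h.2; linarith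
  have e2 : ¬ (a ≤ k - 1 ∧ k - 1 < b) := fun h => by
    have := hr.Fpos (k - 1) h.1 h.2; linarith
  have hab := hr.ab
  unfold Pr.L
  rcases lt_or_ge k a with h | h
  · rw [(hr.lo k h).1, (hr.lo (k - 1) (by omega)).1]; ring
  · have h3 : b ≤ k := by
      by_contra h'
      exact e1 ⟨h, by omega⟩
    have h4 : b ≤ k - 1 := by
      by_contra h'
      exact e2 ⟨by omega, by omega⟩
    rw [(hr.hi k h3).1, (hr.hi (k - 1) h4).1]; ring

theorem R_zero {T : Pr} {a b : ℤ} (hr : T.Reg a b) (k : ℤ) (h1 : T.F k = 0)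
    (h2 : T.F (k - 1) = 0) : T.R k = 0 := by
  have e1 : ¬ (a ≤ k ∧ k < b) := fun h => by
    have := hr.Fpos k h.1 h.2; linarith
  have e2 : ¬ (a ≤ k - 1 ∧ k - 1 < b) := fun h => by
    have := hr.Fpos (k - 1) h.1 h.2; linarith
  have hab := hr.ab
  unfold Pr.R
  rcases lt_or_ge k a with h | h
  · rw [(hr.lo k h).2, (hr.lo (k - 1) (by omega)).2]; ring
  · have h3 : b ≤ k := by
      by_contra h'
      exact e1 ⟨h, by omega⟩
    have h4 : b ≤ k - 1 := by
      by_contra h'
      exact e2 ⟨by omega, by omega⟩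
    rw [(hr.hi k h3).2, (hr.hi (k - 1) h4).2]; ring

/-- the final inequality -/
theorem fin_ineq (f0 f1 f2 h zz zs A B x y : ℝ) (hA : 0 ≤ A) (hB : 0 ≤ B) (hh : 0 ≤ h)
    (hB2 : B = f2 - h) (hcs : ∀ t : ℝ, 0 ≤ zz - 2 * t * zs + t ^ 2 * h)
    (hzs : zs = (f1 - h) * x - B * y) (w : ℝ) (hlc : f0 * f2 ≤ f1 ^ 2) (hf1 : 0 ≤ f1)
    (hx : f1 = 0 → f2 = 0 → x = 0) :
    0 ≤ zz + A * w ^ 2 + B * (y - x) ^ 2 - (f0 - 2 * f1 + f2) * x ^ 2 := by
  have hf2 : 0 ≤ f2 := by linarith
  have hAw : 0 ≤ A * w ^ 2 := by positivity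
  rcases hf2.eq_or_lt with h0 | h0
  · have hB0 : B = 0 := by linarith
    have hh0 : h = 0 := by linarith
    have hzz : 0 ≤ zz := by
      have := hcs 0
      simpa using this
    have hzs0 : zs = 0 := by
      by_contra hne
      have h1 := hcs ((zz + 1) / (2 * zs))
      rw [hh0] at h1
      have h2 : 2 * ((zz + 1) / (2 * zs)) * zs = zz + 1 := by field_simp
      rw [h2] at h1
      linarith
    have hx0 : x = 0 := by
      rcases hf1.eq_or_lt with h3 | h3
      · exact hx h3.symm h0.symm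
      · rw [hzs0, hB0, hh0] at hzs
        have h4 : f1 * x = 0 := by linarith
        rcases mul_eq_zero.1 h4 with h5 | h5
        · linarith
        · exact h5
    rw [hx0, hB0]
    linarith
  · obtain ⟨c, hc⟩ : ∃ c : ℝ, c * f2 = f1 - f2 := ⟨(f1 - f2) / f2, div_mul_cancel₀ _ h0.ne'⟩
    have h1 := hcs (c * x)
    have h2 : 0 ≤ c ^ 2 * f2 - (f0 - 2 * f1 + f2) := by
      have h3 : (c ^ 2 * f2 - (f0 - 2 * f1 + f2)) * f2 = f1 ^ 2 - f0 * f2 := by
        have : c ^ 2 * f2 * f2 = (f1 - f2) ^ 2 := by rw [← hc]; ring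
        linear_combination this
      by_contra hneg
      push Not at hneg
      nlinarith
    have h4 : zz + A * w ^ 2 + B * (y - x) ^ 2 - (f0 - 2 * f1 + f2) * x ^ 2 =
        (zz - 2 * (c * x) * zs + (c * x) ^ 2 * h) + A * w ^ 2 + B * (y - x - c * x) ^ 2 +
          (c ^ 2 * f2 - (f0 - 2 * f1 + f2)) * x ^ 2 := by
      rw [hzs, hB2]
      linear_combination (-(2 * c * x ^ 2)) * hc
    rw [h4]
    have h5 : 0 ≤ B * (y - x - c * x) ^ 2 := by positivity
    have h6 : 0 ≤ (c ^ 2 * f2 - (f0 - 2 * f1 + f2)) * x ^ 2 := by positivity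
    linarith

theorem zero_of_sum {T : Pr} {a b : ℤ} {m : ℤ → ℤ → ℝ} (hc : Cpl T a b m) (p : ℤ → ℤ → Prop)
    [∀ i i', Decidable (p i i')]
    (hz : ∑ i ∈ Icc a b, ∑ i' ∈ Icc a b, m i i' * (if p i i' then (1 : ℝ) else 0) = 0)
    (i i' : ℤ) (h : p i i') : m i i' = 0 := by
  by_contra hne
  obtain ⟨q1, q2, q3⟩ := hc.supp i i' hne
  have nn1 : ∀ i ∈ Icc a b, 0 ≤ ∑ i' ∈ Icc a b, m i i' * (if p i i' then (1 : ℝ) else 0) := by
    intro i _
    apply Finset.sum_nonneg
    intro i' _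
    apply mul_nonneg (hc.nn i i')
    split_ifs <;> norm_num
  have z1 := (Finset.sum_eq_zero_iff_of_nonneg nn1).1 hz i (Finset.mem_Icc.2 ⟨q1, le_trans q2 q3⟩)
  have nn2 : ∀ i' ∈ Icc a b, 0 ≤ m i i' * (if p i i' then (1 : ℝ) else 0) := by
    intro i' _
    apply mul_nonneg (hc.nn i i')
    split_ifs <;> norm_num
  have z2 := (Finset.sum_eq_zero_iff_of_nonneg nn2).1 z1 i' (Finset.mem_Icc.2 ⟨le_trans q1 q2, q3⟩)
  rw [if_pos h, mul_one] at z2
  exact hne z2

theorem Am_eq (a b : ℤ) (m ζ : ℤ → ℤ → ℝ) (k : ℤ) :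
    Am a b m ζ k = ∑ i ∈ Icc a b, ∑ i' ∈ Icc a b, m i i' * (if i < k then ζ i i' else 0) := by
  unfold Am
  refine Finset.sum_congr rfl fun i _ => Finset.sum_congr rfl fun i' _ => ?_
  split_ifs <;> ring

theorem Bm_eq (a b : ℤ) (m ζ : ℤ → ℤ → ℝ) (k : ℤ) :
    Bm a b m ζ k = ∑ i ∈ Icc a b, ∑ i' ∈ Icc a b, m i i' * (if i' ≤ k then ζ i i' else 0) := by
  unfold Bm
  refine Finset.sum_congr rfl fun i _ => Finset.sum_congr rfl fun i' _ => ?_
  split_ifs <;> ring

/-- the sum over `i ≤ k - 2`, `k < i'`, first case -/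
theorem Z_one {T : Pr} {a b : ℤ} {m : ℤ → ℤ → ℝ} (hc : Cpl T a b m) (k : ℤ)
    (hv : ∀ i, i ≠ k → i ≠ k - 1 → m i k = 0) (g : ℤ → ℤ → ℝ) :
    ∑ i ∈ Icc a b, ∑ i' ∈ Icc a b, m i i' * (if i ≤ k - 2 ∧ k < i' then g i i' else 0) =
      (∑ i ∈ Icc a b, ∑ i' ∈ Icc a b, m i i' * (if i < k - 1 then g i i' else 0)) -
      (∑ i ∈ Icc a b, ∑ i' ∈ Icc a b, m i i' * (if i' ≤ k - 1 then g i i' else 0)) +
      m (k - 1) (k - 1) * g (k - 1) (k - 1) := by
  rw [← single_sum hc (k - 1) (k - 1), mul_comm, Finset.mul_sum, ← Finset.sum_sub_distrib,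
    ← Finset.sum_add_distrib]
  refine Finset.sum_congr rfl fun i _ => ?_
  rw [Finset.mul_sum, ← Finset.sum_sub_distrib, ← Finset.sum_add_distrib]
  refine Finset.sum_congr rfl fun i' _ => ?_
  by_cases hm : m i i' = 0
  · rw [hm]; ring
  have hii := (hc.supp i i' hm).2.1
  rcases lt_trichotomy i (k - 1) with h | h | h
  · have e1 : i ≠ k - 1 := by omega
    by_cases f1 : i' ≤ k - 1
    · have e2 : ¬ (i ≤ k - 2 ∧ k < i') := by rintro ⟨_, h1⟩; omega
      rw [if_neg e2, if_pos h, if_pos f1, if_neg e1]; ring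
    · have f2 : i' ≠ k := by
        rintro rfl
        exact hm (hv i (by omega) e1)
      have e2 : (i ≤ k - 2 ∧ k < i') := ⟨by omega, by omega⟩
      rw [if_pos e2, if_pos h, if_neg f1, if_neg e1]; ring
  · have e2 : ¬ (i ≤ k - 2 ∧ k < i') := by rintro ⟨h1, _⟩; omega
    have e3 : ¬ i < k - 1 := by omega
    rw [if_neg e2, if_neg e3, if_pos h]
    by_cases f1 : i' ≤ k - 1
    · have e4 : k - 1 = i' := by omega
      rw [if_pos f1, if_pos e4, h, ← e4]; ring
    · have e4 : ¬ k - 1 = i' := by omega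
      rw [if_neg f1, if_neg e4]; ring
  · have e2 : ¬ (i ≤ k - 2 ∧ k < i') := by rintro ⟨h1, _⟩; omega
    have e3 : ¬ i < k - 1 := by omega
    have e4 : ¬ i' ≤ k - 1 := by omega
    have e5 : i ≠ k - 1 := by omega
    rw [if_neg e2, if_neg e3, if_neg e4, if_neg e5]; ring

/-- the sum over `i ≤ k - 2`, `k < i'`, second case -/
theorem Z_two {T : Pr} {a b : ℤ} {m : ℤ → ℤ → ℝ} (hc : Cpl T a b m) (k : ℤ)
    (hv : ∀ i', i' ≠ k → i' ≠ k - 1 → m (k - 1) i' = 0) (g : ℤ → ℤ → ℝ) :
    ∑ i ∈ Icc a b, ∑ i' ∈ Icc a b, m i i' * (if i ≤ k - 2 ∧ k < i' then g i i' else 0) =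
      (∑ i ∈ Icc a b, ∑ i' ∈ Icc a b, m i i' * (if i < k then g i i' else 0)) -
      (∑ i ∈ Icc a b, ∑ i' ∈ Icc a b, m i i' * (if i' ≤ k then g i i' else 0)) +
      m k k * g k k := by
  rw [← single_sum hc k k, mul_comm, Finset.mul_sum, ← Finset.sum_sub_distrib,
    ← Finset.sum_add_distrib]
  refine Finset.sum_congr rfl fun i _ => ?_
  rw [Finset.mul_sum, ← Finset.sum_sub_distrib, ← Finset.sum_add_distrib]
  refine Finset.sum_congr rfl fun i' _ => ?_
  by_cases hm : m i i' = 0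
  · rw [hm]; ring
  have hii := (hc.supp i i' hm).2.1
  rcases lt_trichotomy i k with h | h | h
  · have e1 : i ≠ k := by omega
    by_cases f1 : i' ≤ k
    · have e2 : ¬ (i ≤ k - 2 ∧ k < i') := by rintro ⟨_, h1⟩; omega
      rw [if_neg e2, if_pos h, if_pos f1, if_neg e1]; ring
    · have f2 : i ≠ k - 1 := by
        rintro rfl
        exact hm (hv i' (by omega) (by omega))
      have e2 : (i ≤ k - 2 ∧ k < i') := ⟨by omega, by omega⟩
      rw [if_pos e2, if_pos h, if_neg f1, if_neg e1]; ring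
  · have e2 : ¬ (i ≤ k - 2 ∧ k < i') := by rintro ⟨h1, _⟩; omega
    have e3 : ¬ i < k := by omega
    rw [if_neg e2, if_neg e3, if_pos h]
    by_cases f1 : i' ≤ k
    · have e4 : k = i' := by omega
      rw [if_pos f1, if_pos e4, h, ← e4]; ring
    · have e4 : ¬ k = i' := by omega
      rw [if_neg f1, if_neg e4]; ring
  · have e2 : ¬ (i ≤ k - 2 ∧ k < i') := by rintro ⟨h1, _⟩; omega
    have e3 : ¬ i < k := by omega
    have e4 : ¬ i' ≤ k := by omega
    have e5 : i ≠ k := by omega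
    rw [if_neg e2, if_neg e3, if_neg e4, if_neg e5]; ring

/-- StmtR4 -/
theorem r4 (hK : StmtKAP) : StmtR4 := by
  intro T n a b m opt ζ xN xI nN nI H j
  have hc := H.cpl
  have hr := H.hh.toReg
  have hp := H.par
  have hle : ∀ i i', m i i' ≠ 0 → i ≤ i' := fun i i' h => (hc.supp i i' h).2.1
  have hom : ∀ i, m i i * (ζ i i - (nI i - xI i)) = 0 := by
    intro i
    by_cases h0 : m i i = 0
    · rw [h0, zero_mul]
    · have h1 := h0
      rw [hc.inst i] at h1
      have hh : T.h i < 0 := by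
        by_contra h
        push Not at h
        apply h1
        unfold Pr.al
        rw [max_eq_left (by linarith)]
      rw [hp.om i hh, sub_self, mul_zero]
  have hoc : ∀ i, m i i ≠ 0 → oc ζ xN xI nN nI i i = 0 := by
    intro i hi
    have h1 := hom i
    rcases mul_eq_zero.1 h1 with h2 | h2
    · exact absurd h2 hi
    · unfold oc xc nc
      simp only [if_true]
      linarith
  rw [hK n a b m ζ xN xI nN nI j j le_rfl hle hoc]
  obtain ⟨k, hkd⟩ : ∃ k, k = n - j := ⟨_, rfl⟩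
  have d1 : n - 1 - j = k - 1 := by omega
  have d2 : n - j - 1 = k - 1 := by omega
  have d3 : n - 2 - j = k - 2 := by omega
  rw [d1, d2, d3, ← hkd]
  -- names
  obtain ⟨ξ, hξ⟩ : ∃ ξ, ξ = xN (k - 1) := ⟨_, rfl⟩
  obtain ⟨ν, hν⟩ : ∃ ν, ν = nN k := ⟨_, rfl⟩
  obtain ⟨z0, hz0⟩ : ∃ z, z = ζ k k := ⟨_, rfl⟩
  obtain ⟨z1, hz1⟩ : ∃ z, z = ζ (k - 1) (k - 1) := ⟨_, rfl⟩
  obtain ⟨z2, hz2⟩ : ∃ z, z = ζ (k - 1) k := ⟨_, rfl⟩
  -- pointwise identity
  have point : ∀ i i' : ℤ, m i i' *
      ((if i = k then (xc xN xI i i') ^ 2 else 0)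
      - (if i = k - 1 then (xc xN xI i i') ^ 2 + 2 * xc xN xI i i' * ζ i i' else 0)
      + (if i' = k - 1 then (nc nN nI i i') ^ 2 else 0)
      - (if i' = k then (nc nN nI i i') ^ 2 - 2 * nc nN nI i i' * ζ i i' else 0)
      + ((if i ≤ k - 2 then 1 else 0) - (if i' ≤ k then 1 else 0)) * (ζ i i') ^ 2
      + (if j = j ∧ i' = i + 1 ∧ i' = k then (oc ζ xN xI nN nI i i') ^ 2 else 0)) =
      m i i' * (if i = k then (if k = i' then xI k ^ 2 else xN k ^ 2) else 0)
      - m i i' * (if i = k - 1 then (if k - 1 = i' then xI (k - 1) ^ 2 else ξ ^ 2) else 0)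
      - 2 * ξ * (m i i' * (if i = k - 1 then ζ i i' else 0))
      + m i i' * (if i' = k - 1 then (if i = k - 1 then nI (k - 1) ^ 2 else nN (k - 1) ^ 2) else 0)
      - m i i' * (if i' = k then (if i = k then nI k ^ 2 else ν ^ 2) else 0)
      + 2 * ν * (m i i' * (if i' = k then ζ i i' else 0))
      + m i i' * (if i ≤ k - 2 ∧ k < i' then (ζ i i') ^ 2 else 0)
      + (- 2 * (xI (k - 1) - ξ) * z1 - z1 ^ 2) *
          (m i i' * (if i = k - 1 then (if k - 1 = i' then (1 : ℝ) else 0) else 0))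
      + (2 * (nI k - ν) * z0 - z0 ^ 2) *
          (m i i' * (if i = k then (if k = i' then (1 : ℝ) else 0) else 0))
      + ((z2 + ξ - ν) ^ 2 - z2 ^ 2) *
          (m i i' * (if i = k - 1 then (if k = i' then (1 : ℝ) else 0) else 0)) := by
    intro i i'
    by_cases hm : m i i' = 0
    · rw [hm]; ring
    have hii := hle i i' hm
    rcases lt_trichotomy i (k - 1) with h | h | h
    · -- i ≤ k - 2
      have e1 : i ≠ k := by omega
      have e2 : i ≠ k - 1 := by omega
      have e3 : i ≤ k - 2 := by omega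
      have e4 : ¬ (i' = i + 1 ∧ i' = k) := by rintro ⟨h1, h2⟩; omega
      simp only [true_and, if_neg e1, if_neg e2, if_neg e4, if_pos e3]
      have e5 : nc nN nI i i' ^ 2 = if i = i' then nI i' ^ 2 else nN i' ^ 2 := by
        unfold nc; split_ifs <;> rfl
      by_cases f1 : i' = k - 1
      · have f2 : i' ≠ k := by omega
        have f3 : i' ≤ k := by omega
        have f4 : ¬ (i ≤ k - 2 ∧ k < i') := by rintro ⟨_, h1⟩; omega
        simp only [if_pos f1, if_neg f2, if_pos f3, if_neg f4]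
        have e6 : nc nN nI i i' = nN (k - 1) := by
          unfold nc; rw [if_neg (by omega), f1]
        rw [e6]
        ring
      · simp only [if_neg f1]
        by_cases f2 : i' = k
        · have f3 : i' ≤ k := by omega
          have f4 : ¬ (i ≤ k - 2 ∧ k < i') := by rintro ⟨_, h1⟩; omega
          simp only [if_pos f2, if_pos f3, if_neg f4]
          have e6 : nc nN nI i i' = ν := by
            unfold nc; rw [if_neg (by omega), f2, hν]
          rw [e6]
          ring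
        · simp only [if_neg f2]
          by_cases f3 : i' ≤ k
          · have f4 : ¬ (i ≤ k - 2 ∧ k < i') := by rintro ⟨_, h1⟩; omega
            simp only [if_pos f3, if_neg f4]
            ring
          · have f4 : (i ≤ k - 2 ∧ k < i') := ⟨e3, by omega⟩
            simp only [if_neg f3, if_pos f4]
            ring
    · -- i = k - 1
      have e1 : i ≠ k := by omega
      have e3 : ¬ i ≤ k - 2 := by omega
      have f4 : ¬ (i ≤ k - 2 ∧ k < i') := by rintro ⟨h1, _⟩; omega
      simp only [if_neg e1, if_pos h, if_neg e3, if_neg f4]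
      by_cases f1 : i' = k - 1
      · have f2 : i' ≠ k := by omega
        have f3 : i' ≤ k := by omega
        have e4 : ¬ (i' = i + 1 ∧ i' = k) := by rintro ⟨h1, h2⟩; omega
        have e5 : k - 1 = i' := f1.symm
        have e6 : ¬ k = i' := by omega
        have e7 : i = k - 1 := h
        simp only [true_and, if_pos f1, if_neg f2, if_pos f3, if_neg e4, if_pos e5, if_neg e6]
        have g1 : xc xN xI i i' = xI (k - 1) := by
          unfold xc; rw [if_pos (by omega), h]
        have g2 : nc nN nI i i' = nI (k - 1) := by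
          unfold nc; rw [if_pos (by omega), f1]
        have g3 : ζ i i' = z1 := by rw [h, f1, hz1]
        rw [g1, g2, g3]
        ring
      · have e5 : ¬ k - 1 = i' := by omega
        have g1 : xc xN xI i i' = ξ := by
          unfold xc; rw [if_neg (by omega), h, hξ]
        simp only [if_neg f1, if_neg e5]
        rw [g1]
        by_cases f2 : i' = k
        · have f3 : i' ≤ k := by omega
          have e4 : (i' = i + 1 ∧ i' = k) := ⟨by omega, f2⟩
          have e6 : k = i' := f2.symm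
          have g2 : nc nN nI i i' = ν := by
            unfold nc; rw [if_neg (by omega), f2, hν]
          have g3 : ζ i i' = z2 := by rw [h, f2, hz2]
          have g4 : oc ζ xN xI nN nI i i' = z2 + ξ - ν := by
            unfold oc; rw [g1, g2, g3]
          simp only [true_and, if_pos f2, if_pos f3, if_pos e4, if_pos e6]
          rw [g2, g3, g4]
          ring
        · have f3 : ¬ i' ≤ k := by omega
          have e4 : ¬ (i' = i + 1 ∧ i' = k) := by rintro ⟨h1, h2⟩; omega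
          have e6 : ¬ k = i' := by omega
          simp only [true_and, if_neg f2, if_neg f3, if_neg e4, if_neg e6]
          ring
    · -- k ≤ i
      have e2 : i ≠ k - 1 := by omega
      have e3 : ¬ i ≤ k - 2 := by omega
      have f4 : ¬ (i ≤ k - 2 ∧ k < i') := by rintro ⟨h1, _⟩; omega
      have f1 : i' ≠ k - 1 := by omega
      have e4 : ¬ (i' = i + 1 ∧ i' = k) := by rintro ⟨h1, h2⟩; omega
      simp only [true_and, if_neg e2, if_neg e3, if_neg f4, if_neg f1, if_neg e4]
      by_cases e1 : i = k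
      · simp only [if_pos e1]
        by_cases f2 : i' = k
        · have f3 : i' ≤ k := by omega
          have e6 : k = i' := f2.symm
          have g1 : xc xN xI i i' = xI k := by
            unfold xc; rw [if_pos (by omega), e1]
          have g2 : nc nN nI i i' = nI k := by
            unfold nc; rw [if_pos (by omega), f2]
          have g3 : ζ i i' = z0 := by rw [e1, f2, hz0]
          simp only [if_pos f2, if_pos f3, if_pos e6]
          rw [g1, g2, g3]
          ring
        · have f3 : ¬ i' ≤ k := by omega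
          have e6 : ¬ k = i' := by omega
          have g1 : xc xN xI i i' = xN k := by
            unfold xc; rw [if_neg (by omega), e1]
          simp only [if_neg f2, if_neg f3, if_neg e6]
          rw [g1]
          ring
      · have f2 : i' ≠ k := by omega
        have f3 : ¬ i' ≤ k := by omega
        simp only [if_neg e1, if_neg f2, if_neg f3]
        ring
  rw [Finset.sum_congr rfl (fun i _ => Finset.sum_congr rfl (fun i' _ => point i i'))]
  simp only [Finset.sum_add_distrib, Finset.sum_sub_distrib, ← Finset.mul_sum]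
  -- the sums
  have s1 := row_sum hc k (fun i' => if k = i' then xI k ^ 2 else xN k ^ 2)
  rw [row_split hc k (xI k ^ 2) (xN k ^ 2)] at s1
  have s2 := row_sum hc (k - 1) (fun i' => if k - 1 = i' then xI (k - 1) ^ 2 else ξ ^ 2)
  rw [row_split hc (k - 1) (xI (k - 1) ^ 2) (ξ ^ 2)] at s2
  have s3 := Am_succ a b m ζ (k - 1)
  rw [sub_add_cancel] at s3
  have s4 := col_sum hc (k - 1) (fun i => if i = k - 1 then nI (k - 1) ^ 2 else nN (k - 1) ^ 2)
  rw [col_split hc (k - 1) (nI (k - 1) ^ 2) (nN (k - 1) ^ 2)] at s4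
  have s5 := col_sum hc k (fun i => if i = k then nI k ^ 2 else ν ^ 2)
  rw [col_split hc k (nI k ^ 2) (ν ^ 2)] at s5
  have s6 := Bm_succ a b m ζ k
  have s8 := single_sum hc (k - 1) (k - 1)
  have s9 := single_sum hc k k
  have s10 := single_sum hc (k - 1) k
  rw [s1, s2, s3, s4, s5, s6, s8, s9, s10]
  obtain ⟨zz, hzz⟩ : ∃ zz, zz = ∑ i ∈ Icc a b, ∑ i' ∈ Icc a b, m i i' *
    (if i ≤ k - 2 ∧ k < i' then (ζ i i') ^ 2 else 0) := ⟨_, rfl⟩
  obtain ⟨zs, hzs⟩ : ∃ zs, zs = ∑ i ∈ Icc a b, ∑ i' ∈ Icc a b, m i i' *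
    (if i ≤ k - 2 ∧ k < i' then ζ i i' else 0) := ⟨_, rfl⟩
  obtain ⟨zm, hzm⟩ : ∃ zm, zm = ∑ i ∈ Icc a b, ∑ i' ∈ Icc a b, m i i' *
    (if i ≤ k - 2 ∧ k < i' then (1 : ℝ) else 0) := ⟨_, rfl⟩
  rw [← hzz]
  have hcs : ∀ t : ℝ, 0 ≤ zz - 2 * t * zs + t ^ 2 * zm := by
    intro t
    have h1 : zz - 2 * t * zs + t ^ 2 * zm = ∑ i ∈ Icc a b, ∑ i' ∈ Icc a b, m i i' *
        (if i ≤ k - 2 ∧ k < i' then (ζ i i' - t) ^ 2 else 0) := by
      rw [hzz, hzs, hzm, Finset.mul_sum, Finset.mul_sum, ← Finset.sum_sub_distrib,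
        ← Finset.sum_add_distrib]
      refine Finset.sum_congr rfl fun i _ => ?_
      rw [Finset.mul_sum, Finset.mul_sum, ← Finset.sum_sub_distrib, ← Finset.sum_add_distrib]
      refine Finset.sum_congr rfl fun i' _ => ?_
      by_cases h : i ≤ k - 2 ∧ k < i'
      · rw [if_pos h, if_pos h, if_pos h, if_pos h]; ring
      · rw [if_neg h, if_neg h, if_neg h, if_neg h]; ring
    rw [h1]
    refine Finset.sum_nonneg fun i _ => Finset.sum_nonneg fun i' _ =>
      mul_nonneg (hc.nn i i') ?_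
    split_ifs
    · positivity
    · exact le_refl _
  -- masses
  have a0 := hc.inst k
  have a1 := hc.inst (k - 1)
  have m1 := hc.one k
  have hp0 := hp_al T k
  have hp1 := hp_al T (k - 1)
  have L0 := L_eq T k
  have L1 := L_eq T (k - 1)
  have R0 := R_eq T k
  have R1 := R_eq T (k - 1)
  have k2 : k - 1 - 1 = k - 2 := by ring
  rw [k2] at R1
  have hF0 := F_nonneg hr k
  have hF1 := F_nonneg hr (k - 1)
  have hF2 := F_nonneg hr (k - 2)
  have hL0 := H.hh.L0 k
  have hR0 := H.hh.R0 k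
  have hL1 := H.hh.L0 (k - 1)
  have hR1 := H.hh.R0 (k - 1)
  have nn0 : 0 ≤ T.hp k := le_max_left _ _
  have nn1 : 0 ≤ T.hp (k - 1) := le_max_left _ _
  have hpF0 : T.hp k ≤ T.F k := max_le hF0 (by linarith)
  have hpF1 : T.hp (k - 1) ≤ T.F (k - 2) := max_le hF2 (by linarith)
  have hlc := H.hh.lc k
  have bA0 := hp.blkA k
  have bA1 := hp.blkA (k - 1)
  have bB0 := hp.blkB k
  have bB1 := hp.blkB (k - 1)
  rw [← hξ] at bA1
  rw [← hν] at bB0
  have o0 := hom k
  have o1 := hom (k - 1)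
  rw [← hz0] at o0
  rw [← hz1] at o1
  have col1 : ∑ i ∈ Icc a b, ∑ i' ∈ Icc a b, m i i' * (if i' = k then (1 : ℝ) else 0) = T.R k := by
    have h := col_sum hc k (fun _ => (1 : ℝ))
    simp only [mul_one] at h
    rw [hc.col k] at h
    exact h
  have row1 : ∑ i ∈ Icc a b, ∑ i' ∈ Icc a b, m i i' * (if i = k - 1 then (1 : ℝ) else 0) =
      T.L (k - 1) := by
    have h := row_sum hc (k - 1) (fun _ => (1 : ℝ))
    simp only [mul_one] at h
    rw [hc.row (k - 1)] at h
    exact h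
  have hPk : ∀ l : ℤ, ∑ i ∈ Icc a b, ∑ i' ∈ Icc a b, m i i' * (if i < l then (1 : ℝ) else 0) =
      T.P (l - 1) := by
    intro l
    rw [← P_eq hr hc (l - 1)]
    refine Finset.sum_congr rfl fun i _ => Finset.sum_congr rfl fun i' _ => ?_
    by_cases h : i < l
    · rw [if_pos h, if_pos (by omega)]
    · rw [if_neg h, if_neg (by omega)]
  rcases le_total (T.hp (k - 1)) (T.hp k) with hcase | hcase
  · -- first case
    rw [max_eq_right hcase] at m1
    have hv : ∀ i, i ≠ k → i ≠ k - 1 → m i k = 0 := by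
      intro i h1 h2
      refine zero_of_sum hc (fun i i' => i' = k ∧ i ≠ k ∧ i ≠ k - 1) ?_ i k ⟨rfl, h1, h2⟩
      have h3 : ∀ i ∈ Icc a b, ∀ i' ∈ Icc a b,
          m i i' * (if i' = k ∧ i ≠ k ∧ i ≠ k - 1 then (1 : ℝ) else 0) =
          m i i' * (if i' = k then (1 : ℝ) else 0)
          - m i i' * (if i = k then (if k = i' then (1 : ℝ) else 0) else 0)
          - m i i' * (if i = k - 1 then (if k = i' then (1 : ℝ) else 0) else 0) := by
        intro i _ i' _
        by_cases f : i' = k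
        · have f' : k = i' := f.symm
          rw [if_pos f, if_pos f']
          by_cases g1 : i = k
          · have g2 : i ≠ k - 1 := by omega
            have g3 : ¬ (i' = k ∧ i ≠ k ∧ i ≠ k - 1) := fun h => h.2.1 g1
            rw [if_neg g3, if_pos g1, if_neg g2]; ring
          · by_cases g2 : i = k - 1
            · have g3 : ¬ (i' = k ∧ i ≠ k ∧ i ≠ k - 1) := fun h => h.2.2 g2
              rw [if_neg g3, if_neg g1, if_pos g2]; ring
            · have g3 : (i' = k ∧ i ≠ k ∧ i ≠ k - 1) := ⟨f, g1, g2⟩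
              rw [if_pos g3, if_neg g1, if_neg g2]; ring
        · have f' : ¬ k = i' := fun h => f h.symm
          have g3 : ¬ (i' = k ∧ i ≠ k ∧ i ≠ k - 1) := fun h => f h.1
          rw [if_neg f, if_neg f', if_neg g3]; simp
      rw [Finset.sum_congr rfl fun i hi => Finset.sum_congr rfl (h3 i hi)]
      simp only [Finset.sum_sub_distrib]
      rw [col1, s9, s10]
      linarith
    have e1 : Bm a b m ζ k - Bm a b m ζ (k - 1) = m k k * z0 + m (k - 1) k * z2 := by
      rw [← s6, ← s9, ← s10, mul_comm _ z0, mul_comm _ z2, Finset.mul_sum, Finset.mul_sum,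
        ← Finset.sum_add_distrib]
      refine Finset.sum_congr rfl fun i _ => ?_
      rw [Finset.mul_sum, Finset.mul_sum, ← Finset.sum_add_distrib]
      refine Finset.sum_congr rfl fun i' _ => ?_
      by_cases f : i' = k
      · have f' : k = i' := f.symm
        rw [if_pos f, if_pos f']
        by_cases g1 : i = k
        · have g2 : i ≠ k - 1 := by omega
          rw [if_pos g1, if_neg g2, g1, f, hz0]; ring
        · by_cases g2 : i = k - 1
          · rw [if_neg g1, if_pos g2, g2, f, hz2]; ring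
          · rw [if_neg g1, if_neg g2, f, hv i g1 g2]; ring
      · have f' : ¬ k = i' := fun h => f h.symm
        rw [if_neg f, if_neg f']; simp
    have e2 : zs = Am a b m ζ (k - 1) - Bm a b m ζ (k - 1) + m (k - 1) (k - 1) * z1 := by
      rw [hzs, Z_one hc k hv ζ, Am_eq, Bm_eq, hz1]
    have e3 : zm = T.hp (k - 1) := by
      rw [hzm, Z_one hc k hv (fun _ _ => 1), hPk, Q_eq hr hc (k - 1), k2, a1, hp1]
      have : T.h (k - 1) = T.P (k - 2) - T.Q (k - 1) := by unfold Pr.h Pr.H; rw [k2]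
      rw [this]; ring
    have key := fin_ineq (T.F k) (T.F (k - 1)) (T.F (k - 2)) (T.hp (k - 1)) zz zs
      (T.L k - m k k) (T.R (k - 1) - m (k - 1) (k - 1)) ξ (nN (k - 1)) (by linarith) (by linarith)
      nn1 (by linarith) (by rw [← e3]; exact hcs) (by
        rw [e2, ← bA1, ← bB1]
        have h5 : T.F (k - 1) - T.hp (k - 1) = T.L (k - 1) - m (k - 1) (k - 1) := by linarith
        rw [h5]
        linear_combination o1) (xN k - ξ) hlc hF1 (by
        intro h5 h6
        rw [hξ]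
        exact hp.zX (k - 1) (L_zero hr (k - 1) h5 (by rw [k2]; exact h6)))
    have hfin : m k k * xI k ^ 2 + (T.L k - m k k) * xN k ^ 2 -
        (m (k - 1) (k - 1) * xI (k - 1) ^ 2 + (T.L (k - 1) - m (k - 1) (k - 1)) * ξ ^ 2) -
        2 * ξ * (Am a b m ζ k - Am a b m ζ (k - 1)) +
        (m (k - 1) (k - 1) * nI (k - 1) ^ 2 + (T.R (k - 1) - m (k - 1) (k - 1)) * nN (k - 1) ^ 2) -
        (m k k * nI k ^ 2 + (T.R k - m k k) * ν ^ 2) +
        2 * ν * (Bm a b m ζ k - Bm a b m ζ (k - 1)) + zz +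
        (-2 * (xI (k - 1) - ξ) * z1 - z1 ^ 2) * m (k - 1) (k - 1) +
        (2 * (nI k - ν) * z0 - z0 ^ 2) * m k k +
        ((z2 + ξ - ν) ^ 2 - z2 ^ 2) * m (k - 1) k =
        zz + (T.L k - m k k) * (xN k - ξ) ^ 2 + (T.R (k - 1) - m (k - 1) (k - 1)) *
          (nN (k - 1) - ξ) ^ 2 - (T.F k - 2 * T.F (k - 1) + T.F (k - 2)) * ξ ^ 2 := by
      have hR : T.R k - m k k = m (k - 1) k := by linarith
      have g0 : T.L k - m k k = T.F k - T.hp k := by linarith
      have g1 : T.R (k - 1) - m (k - 1) (k - 1) = T.F (k - 2) - T.hp (k - 1) := by linarith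
      have g2 : T.L (k - 1) - m (k - 1) (k - 1) = T.F (k - 1) - T.hp (k - 1) := by linarith
      linear_combination (xI k + nI k - z0 - 2 * ξ) * o0 +
        (-(nI (k - 1) + xI (k - 1) + z1) + 2 * ξ) * o1 + (2 * ν - 2 * ξ) * e1 +
        (-ν ^ 2 + 2 * ξ * ν) * hR + 2 * ξ * bA0 - 2 * ξ * bA1 - 2 * ξ * bB0 + 2 * ξ * bB1 -
        ξ ^ 2 * g0 - ξ ^ 2 * g1 + ξ ^ 2 * g2 + ξ ^ 2 * m1
    rw [hfin]
    exact key
  · -- second case
    rw [max_eq_left hcase] at m1
    have hv : ∀ i', i' ≠ k → i' ≠ k - 1 → m (k - 1) i' = 0 := by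
      intro i' h1 h2
      refine zero_of_sum hc (fun i i' => i = k - 1 ∧ i' ≠ k ∧ i' ≠ k - 1) ?_ (k - 1) i'
        ⟨rfl, h1, h2⟩
      have h3 : ∀ i ∈ Icc a b, ∀ i' ∈ Icc a b,
          m i i' * (if i = k - 1 ∧ i' ≠ k ∧ i' ≠ k - 1 then (1 : ℝ) else 0) =
          m i i' * (if i = k - 1 then (1 : ℝ) else 0)
          - m i i' * (if i = k - 1 then (if k - 1 = i' then (1 : ℝ) else 0) else 0)
          - m i i' * (if i = k - 1 then (if k = i' then (1 : ℝ) else 0) else 0) := by
        intro i _ i' _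
        by_cases f : i = k - 1
        · rw [if_pos f, if_pos f, if_pos f]
          by_cases g1 : i' = k
          · have g2 : ¬ k - 1 = i' := by omega
            have g3 : ¬ (i = k - 1 ∧ i' ≠ k ∧ i' ≠ k - 1) := fun h => h.2.1 g1
            rw [if_neg g3, if_pos g1.symm, if_neg g2]; ring
          · by_cases g2 : i' = k - 1
            · have g3 : ¬ (i = k - 1 ∧ i' ≠ k ∧ i' ≠ k - 1) := fun h => h.2.2 g2
              have g4 : ¬ k = i' := fun h => g1 h.symm
              rw [if_neg g3, if_neg g4, if_pos g2.symm]; ring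
            · have g3 : (i = k - 1 ∧ i' ≠ k ∧ i' ≠ k - 1) := ⟨f, g1, g2⟩
              have g4 : ¬ k = i' := fun h => g1 h.symm
              have g5 : ¬ k - 1 = i' := fun h => g2 h.symm
              rw [if_pos g3, if_neg g4, if_neg g5]; ring
        · have g3 : ¬ (i = k - 1 ∧ i' ≠ k ∧ i' ≠ k - 1) := fun h => f h.1
          rw [if_neg f, if_neg f, if_neg f, if_neg g3]; simp
      rw [Finset.sum_congr rfl fun i hi => Finset.sum_congr rfl (h3 i hi)]
      simp only [Finset.sum_sub_distrib]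
      rw [row1, s8, s10]
      linarith
    have e1 : Am a b m ζ k - Am a b m ζ (k - 1) = m (k - 1) (k - 1) * z1 + m (k - 1) k * z2 := by
      rw [← s3, ← s8, ← s10, mul_comm _ z1, mul_comm _ z2, Finset.mul_sum, Finset.mul_sum,
        ← Finset.sum_add_distrib]
      refine Finset.sum_congr rfl fun i _ => ?_
      rw [Finset.mul_sum, Finset.mul_sum, ← Finset.sum_add_distrib]
      refine Finset.sum_congr rfl fun i' _ => ?_
      by_cases f : i = k - 1
      · rw [if_pos f, if_pos f, if_pos f]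
        by_cases g1 : i' = k
        · have g2 : ¬ k - 1 = i' := by omega
          rw [if_neg g2, if_pos g1.symm, f, g1, hz2]; ring
        · have g4 : ¬ k = i' := fun h => g1 h.symm
          by_cases g2 : i' = k - 1
          · rw [if_pos g2.symm, if_neg g4, f, g2, hz1]; ring
          · have g5 : ¬ k - 1 = i' := fun h => g2 h.symm
            rw [if_neg g4, if_neg g5, f, hv i' g1 g2]; ring
      · rw [if_neg f, if_neg f, if_neg f]; simp
    have e2 : zs = Am a b m ζ k - Bm a b m ζ k + m k k * z0 := by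
      rw [hzs, Z_two hc k hv ζ, Am_eq, Bm_eq, hz0]
    have e3 : zm = T.hp k := by
      rw [hzm, Z_two hc k hv (fun _ _ => 1), hPk, Q_eq hr hc k, a0, hp0]
      have : T.h k = T.P (k - 1) - T.Q k := by unfold Pr.h Pr.H; rfl
      rw [this]; ring
    have g0 : T.L k - m k k = T.F k - T.hp k := by linarith
    have g1 : T.R (k - 1) - m (k - 1) (k - 1) = T.F (k - 2) - T.hp (k - 1) := by linarith
    have g2 : T.R k - m k k = T.F (k - 1) - T.hp k := by linarith
    have key := fin_ineq (T.F (k - 2)) (T.F (k - 1)) (T.F k) (T.hp k) zz (-zs)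
      (T.R (k - 1) - m (k - 1) (k - 1)) (T.L k - m k k) ν (xN k) (by linarith) (by linarith)
      nn0 g0 (by
        intro t
        have h5 := hcs (-t)
        rw [e3] at h5
        linarith) (by
        rw [e2, ← bA0, ← bB0, g2]
        linear_combination -o0) (nN (k - 1) - ν) (by rw [mul_comm]; exact hlc) hF1 (by
        intro h5 h6
        rw [hν]
        exact hp.zN k (R_zero hr k h6 h5))
    have hfin : m k k * xI k ^ 2 + (T.L k - m k k) * xN k ^ 2 -
        (m (k - 1) (k - 1) * xI (k - 1) ^ 2 + (T.L (k - 1) - m (k - 1) (k - 1)) * ξ ^ 2) -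
        2 * ξ * (Am a b m ζ k - Am a b m ζ (k - 1)) +
        (m (k - 1) (k - 1) * nI (k - 1) ^ 2 + (T.R (k - 1) - m (k - 1) (k - 1)) * nN (k - 1) ^ 2) -
        (m k k * nI k ^ 2 + (T.R k - m k k) * ν ^ 2) +
        2 * ν * (Bm a b m ζ k - Bm a b m ζ (k - 1)) + zz +
        (-2 * (xI (k - 1) - ξ) * z1 - z1 ^ 2) * m (k - 1) (k - 1) +
        (2 * (nI k - ν) * z0 - z0 ^ 2) * m k k +
        ((z2 + ξ - ν) ^ 2 - z2 ^ 2) * m (k - 1) k =
        zz + (T.R (k - 1) - m (k - 1) (k - 1)) * (nN (k - 1) - ν) ^ 2 +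
          (T.L k - m k k) * (xN k - ν) ^ 2 -
          (T.F (k - 2) - 2 * T.F (k - 1) + T.F k) * ν ^ 2 := by
      have hL : T.L (k - 1) - m (k - 1) (k - 1) = m (k - 1) k := by linarith
      linear_combination (xI k + nI k - z0 - 2 * ν) * o0 +
        (-(nI (k - 1) + xI (k - 1) + z1) + 2 * ν) * o1 + (-2 * ξ + 2 * ν) * e1 +
        (-ξ ^ 2 + 2 * ν * ξ) * hL - 2 * ν * bB0 + 2 * ν * bB1 + 2 * ν * bA0 - 2 * ν * bA1 -
        ν ^ 2 * g0 - ν ^ 2 * g1 + ν ^ 2 * g2 + ν ^ 2 * m1
    rw [hfin]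
    exact key

end Pool.Agent.Helper60.LZ
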